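import Pool.Agent.Helper73.ValuatedDeltaProof

set_option autoImplicit false

namespace Pool.Agent.Results.MP_c0a4b6_co.SkewHermitianPlusRankOne

open Pool.Agent.Helper73.ValuatedDelta

/-- **Full answer (positive) to Q1, with no restriction on characteristics.**
Let `K` be any field with a nonarchimedean valuation `ν : K → ℝ ∪ {∞}` and an involutive
automorphism `σ` preserving `ν`.  For every skew-Hermitian `B` and every Hermitian `C` of rank at
most one, the function `S ↦ ν ((B + C)_S)` of principal minors is a valuated Delta-matroid. -/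
theorem result {K : Type*} [Field K] (ν : K → WithTop ℝ) (hν : IsNonarchValuation ν)
    (σ : K ≃+* K) (hσσ : ∀ a, σ (σ a) = a) (hσν : ∀ a, ν (σ a) = ν a)
    (n : ℕ) (B C : Matrix (Fin n) (Fin n) K)
    (hB : starMat σ B = -B) (hC : starMat σ C = C) (hrank : C.rank ≤ 1) :
    IsValuatedDeltaMatroid fun S => ν (principalMinor (B + C) S) := by
  apply main hν σ hσσ hσν
  have h : B + C + starMat σ (B + C) = (Matrix.diagonal fun _ => (2 : K)) * C := by
    rw [starMat_add, hB, hC]
    ext i j
    simp [Matrix.diagonal_mul]
    ring
  rw [h]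
  exact (Matrix.rank_mul_le_right _ _).trans hrank

end Pool.Agent.Results.MP_c0a4b6_co.SkewHermitianPlusRankOne
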